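import Mathlib

set_option autoImplicit false

namespace Pool.Agent.P.MP_349896_an

open Filter Topology

/-- Numerical radius of an operator on a real normed space. -/
noncomputable def nr {X : Type} [NormedAddCommGroup X] [NormedSpace ℝ X] (T : X →L[ℝ] X) : ℝ :=
  sSup {r : ℝ | ∃ (x : X) (f : X →L[ℝ] ℝ), ‖x‖ = 1 ∧ ‖f‖ = 1 ∧ f x = 1 ∧ r = ‖f (T x)‖}

/-- Numerical index of a real normed space. -/
noncomputable def ni (X : Type) [NormedAddCommGroup X] [NormedSpace ℝ X] : ℝ :=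
  sInf ((fun T : X →L[ℝ] X => nr T) '' {T : X →L[ℝ] X | ‖T‖ = 1})

section General

variable {X : Type} [NormedAddCommGroup X] [NormedSpace ℝ X]

theorem le_nr (T : X →L[ℝ] X) (x : X) (f : X →L[ℝ] ℝ) (hx : ‖x‖ = 1) (hf : ‖f‖ = 1)
    (hfx : f x = 1) : |f (T x)| ≤ nr T := by
  apply le_csSup
  · refine ⟨‖T‖, ?_⟩
    rintro r ⟨x, f, hx, hf, -, rfl⟩
    calc ‖f (T x)‖ ≤ ‖f‖ * ‖T x‖ := f.le_opNorm _
      _ ≤ ‖f‖ * (‖T‖ * ‖x‖) := by gcongr; exact T.le_opNorm _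
      _ = ‖T‖ := by rw [hf, hx]; ring
  · exact ⟨x, f, hx, hf, hfx, rfl⟩

theorem nr_nonneg (T : X →L[ℝ] X) : 0 ≤ nr T := by
  apply Real.sSup_nonneg
  rintro r ⟨x, f, -, -, -, rfl⟩
  exact norm_nonneg _

theorem nr_le (T : X →L[ℝ] X) (c : ℝ) (hc : 0 ≤ c)
    (h : ∀ (x : X) (f : X →L[ℝ] ℝ), ‖x‖ = 1 → ‖f‖ = 1 → f x = 1 → |f (T x)| ≤ c) : nr T ≤ c := by
  apply Real.sSup_le _ hc
  rintro r ⟨x, f, hx, hf, hfx, rfl⟩
  exact h x f hx hf hfx

theorem lumer_aux (T : X →L[ℝ] X) (s : ℝ) (z : X) :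
    (1 - |s| * nr T) * ‖z‖ ≤ ‖z - s • T z‖ := by
  by_cases hz : ‖z‖ = 0
  · rw [hz, mul_zero]; exact norm_nonneg _
  obtain ⟨f, hf, hfz⟩ := exists_dual_vector ℝ z hz
  have hzpos : 0 < ‖z‖ := lt_of_le_of_ne (norm_nonneg _) (Ne.symm hz)
  have hfz' : f z = ‖z‖ := by simpa using hfz
  have h1 : |f (T ((‖z‖)⁻¹ • z))| ≤ nr T := by
    apply le_nr T _ f _ hf
    · rw [map_smul, hfz', smul_eq_mul, inv_mul_cancel₀ hz]
    · rw [norm_smul, norm_inv, norm_norm, inv_mul_cancel₀ hz]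
  have h2 : |f (T z)| ≤ nr T * ‖z‖ := by
    rw [map_smul, map_smul, smul_eq_mul, abs_mul, abs_inv, abs_of_pos hzpos,
      inv_mul_le_iff₀ hzpos] at h1
    linarith
  have h3 : f (z - s • T z) ≤ ‖z - s • T z‖ := by
    calc f (z - s • T z) ≤ ‖f (z - s • T z)‖ := le_abs_self _
      _ ≤ ‖f‖ * ‖z - s • T z‖ := f.le_opNorm _
      _ = _ := by rw [hf, one_mul]
  rw [map_sub, map_smul, smul_eq_mul, hfz'] at h3
  have h4 : s * f (T z) ≤ |s| * (nr T * ‖z‖) := by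
    calc s * f (T z) ≤ |s * f (T z)| := le_abs_self _
      _ = |s| * |f (T z)| := abs_mul _ _
      _ ≤ _ := by gcongr
  nlinarith

theorem lumer (T : X →L[ℝ] X) (hT : ‖T‖ = 1) (s : ℝ) (x : X) :
    (1 - |s| * nr T) * ‖x + s • T x‖ ≤ (1 + s ^ 2) * ‖x‖ := by
  refine (lumer_aux T s _).trans ?_
  have : x + s • T x - s • T (x + s • T x) = x - (s ^ 2) • T (T x) := by
    rw [map_add, map_smul, smul_add, smul_smul, sq]; abel
  rw [this]
  have h1 : ‖T (T x)‖ ≤ ‖x‖ := by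
    calc ‖T (T x)‖ ≤ ‖T‖ * ‖T x‖ := T.le_opNorm _
      _ ≤ ‖T‖ * (‖T‖ * ‖x‖) := by gcongr; exact T.le_opNorm _
      _ = ‖x‖ := by rw [hT]; ring
  calc ‖x - (s ^ 2) • T (T x)‖ ≤ ‖x‖ + ‖(s ^ 2) • T (T x)‖ := norm_sub_le _ _
    _ = ‖x‖ + s ^ 2 * ‖T (T x)‖ := by rw [norm_smul, Real.norm_eq_abs, abs_of_nonneg (sq_nonneg s)]
    _ ≤ ‖x‖ + s ^ 2 * ‖x‖ := by gcongr
    _ = _ := by ring

theorem ni_le_of (J : X →L[ℝ] X) (hJn : 1 ≤ ‖J‖ * 1.01)
    (hJ : ∀ (s : ℝ), |s| = 1 → ∀ y, ‖y + s • J y‖ ≤ 1.01 * (1.51 * ‖y‖)) : ni X ≤ 0.6 := by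
  have hJpos : 0 < ‖J‖ := by nlinarith [norm_nonneg J]
  have hbd : BddBelow ((fun T : X →L[ℝ] X => nr T) '' {T | ‖T‖ = 1}) := by
    refine ⟨0, ?_⟩
    rintro r ⟨T, -, rfl⟩
    exact nr_nonneg T
  refine (csInf_le hbd ⟨(‖J‖)⁻¹ • J, ?_, rfl⟩).trans ?_
  · show ‖(‖J‖)⁻¹ • J‖ = 1
    rw [norm_smul, norm_inv, norm_norm, inv_mul_cancel₀ hJpos.ne']
  apply nr_le _ _ (by norm_num)
  intro y g hy hg hgy
  have key : ∀ s : ℝ, |s| = 1 → 1 + s * g (J y) ≤ 1.01 * 1.51 := by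
    intro s hs
    calc 1 + s * g (J y) = g (y + s • J y) := by rw [map_add, map_smul, hgy, smul_eq_mul]
      _ ≤ ‖g (y + s • J y)‖ := le_abs_self _
      _ ≤ ‖g‖ * ‖y + s • J y‖ := g.le_opNorm _
      _ = ‖y + s • J y‖ := by rw [hg, one_mul]
      _ ≤ 1.01 * (1.51 * ‖y‖) := hJ s hs y
      _ = _ := by rw [hy, mul_one]
  have k1 := key 1 (by simp)
  have k2 := key (-1) (by simp)
  have k3 : |g (J y)| ≤ 0.5251 := by rw [abs_le]; constructor <;> linarith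
  rw [smul_apply, map_smul, smul_eq_mul, abs_mul, abs_inv, abs_of_pos hJpos,
    inv_mul_le_iff₀ hJpos]
  nlinarith

theorem closed_range_li {Z : Type} [NormedAddCommGroup Z] [NormedSpace ℝ Z] [CompleteSpace X]
    (j : X →ₗᵢ[ℝ] Z) : IsClosed (Set.range j) := j.isometry.isClosedEmbedding.isClosed_range

theorem mem_range_li {Z : Type} [NormedAddCommGroup Z] [NormedSpace ℝ Z] [CompleteSpace X]
    (j : X →ₗᵢ[ℝ] Z) (z : Z) (h : ∀ ε : ℝ, 0 < ε → ∃ x, ‖z - j x‖ ≤ ε / 2) :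
    z ∈ Set.range j := by
  rw [← (closed_range_li j).closure_eq, Metric.mem_closure_iff]
  intro ε hε
  obtain ⟨x, hx⟩ := h ε hε
  refine ⟨j x, ⟨x, rfl⟩, ?_⟩
  rw [dist_eq_norm]
  linarith

theorem all_mem_range {X' Z : Type} [NormedAddCommGroup Z] [NormedSpace ℝ Z]
    [NormedAddCommGroup X'] [NormedSpace ℝ X'] [CompleteSpace X']
    (j : X →ₗᵢ[ℝ] Z) (j' : X' →ₗᵢ[ℝ] Z) (D : Set X)
    (hD : (Submodule.span ℝ D).topologicalClosure = ⊤) (hDmem : ∀ u ∈ D, j u ∈ Set.range j') :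
    ∀ x, j x ∈ Set.range j' := by
  let M : Submodule ℝ X := (LinearMap.range j'.toLinearMap).comap j.toLinearMap
  have hMc : IsClosed (M : Set X) := (closed_range_li j').preimage j.continuous
  have hle : Submodule.span ℝ D ≤ M := Submodule.span_le.2 fun u hu => hDmem u hu
  have : (⊤ : Submodule ℝ X) ≤ M := hD ▸ Submodule.topologicalClosure_minimal _ hle hMc
  intro x
  exact this (Submodule.mem_top)

theorem complete_of_equiv {Z : Type} [NormedAddCommGroup Z] [NormedSpace ℝ Z] [CompleteSpace X]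
    (e : X ≃L[ℝ] Z) : CompleteSpace Z :=
  (completeSpace_congr (e := e.toEquiv) e.isUniformEmbedding).1 inferInstance

end General

/-- Lower bound of the numerical index of a space close to a space where all operators satisfy the
alternative Daugavet equation. -/
theorem ni_lower {X0 X : Type} [NormedAddCommGroup X0] [NormedSpace ℝ X0]
    [NormedAddCommGroup X] [NormedSpace ℝ X] (e : X0 ≃L[ℝ] X)
    (h1 : ∀ x, ‖e x‖ ≤ ‖x‖) (h2 : ∀ x, ‖x‖ ≤ 1.01 * ‖e x‖) (x0 : X0) (hx0 : x0 ≠ 0)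
    (hadp : ∀ (T : X0 →L[ℝ] X0) (c : ℝ), c < ‖T‖ → ∀ t : ℝ, 0 ≤ t →
      ∃ (s : ℝ) (x : X0), |s| = t ∧ ‖x‖ ≤ 1 ∧ 1 + t * c ≤ ‖x + s • T x‖) :
    0.7 ≤ ni X := by
  have hnt : Nontrivial X := ⟨⟨e x0, 0, by simpa using hx0⟩⟩
  apply le_csInf
  · exact ⟨_, ContinuousLinearMap.id ℝ X, by simp, rfl⟩
  rintro r ⟨T, hT, rfl⟩
  have hT' : ‖T‖ = 1 := hT
  set T0 : X0 →L[ℝ] X0 := (e.symm : X →L[ℝ] X0).comp (T.comp (e : X0 →L[ℝ] X)) with hT0
  have hT0app : ∀ x, e (T0 x) = T (e x) := by intro x; simp [hT0]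
  have hn : (0.99 : ℝ) < ‖T0‖ := by
    have : ‖T‖ ≤ 1.01 * ‖T0‖ := by
      apply ContinuousLinearMap.opNorm_le_bound _ (by positivity)
      intro y
      obtain ⟨x, rfl⟩ := e.surjective y
      rw [← hT0app]
      calc ‖e (T0 x)‖ ≤ ‖T0 x‖ := h1 _
        _ ≤ ‖T0‖ * ‖x‖ := T0.le_opNorm _
        _ ≤ ‖T0‖ * (1.01 * ‖e x‖) := by gcongr; exact h2 _
        _ = _ := by ring
    linarith
  obtain ⟨s, x, hs, hx, hxs⟩ := hadp T0 _ hn 0.1 (by norm_num)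
  have hl := lumer T hT' s (e x)
  have hs2 : s ^ 2 = 0.01 := by rw [← sq_abs, hs]; norm_num
  rw [hs, hs2] at hl
  have h3 : ‖x + s • T0 x‖ ≤ 1.01 * ‖e x + s • T (e x)‖ := by
    have := h2 (x + s • T0 x)
    rwa [map_add, map_smul, hT0app] at this
  have h4 : ‖e x‖ ≤ 1 := (h1 x).trans hx
  by_contra hlt
  push Not at hlt
  have hpos := nr_nonneg T
  nlinarith

/-- Upper bound for the numerical index of the dual of a space close to `X0`. -/
theorem ni_upper {X0 X : Type} [NormedAddCommGroup X0] [NormedSpace ℝ X0]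
    [NormedAddCommGroup X] [NormedSpace ℝ X] (e : X0 ≃L[ℝ] X)
    (h1 : ∀ x, ‖e x‖ ≤ ‖x‖) (h2 : ∀ x, ‖x‖ ≤ 1.01 * ‖e x‖)
    (J0 : (X0 →L[ℝ] ℝ) →L[ℝ] (X0 →L[ℝ] ℝ))
    (hJ : ∀ (s : ℝ), |s| = 1 → ∀ f, ‖f + s • J0 f‖ ≤ 1.51 * ‖f‖)
    (f0 : X0 →L[ℝ] ℝ) (hf0 : ‖f0‖ ≤ 1) (hJf0 : 1 ≤ ‖J0 f0‖) :
    ni (X →L[ℝ] ℝ) ≤ 0.6 := by
  let A : (X →L[ℝ] ℝ) →L[ℝ] (X0 →L[ℝ] ℝ) :=
    (ContinuousLinearMap.compL ℝ X0 X ℝ).flip (e : X0 →L[ℝ] X)
  let B : (X0 →L[ℝ] ℝ) →L[ℝ] (X →L[ℝ] ℝ) :=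
    (ContinuousLinearMap.compL ℝ X X0 ℝ).flip (e.symm : X →L[ℝ] X0)
  have hA : ∀ g x, A g x = g (e x) := by intro g x; simp [A]
  have hB : ∀ f x, B f (e x) = f x := by intro f x; simp [B]
  have hAB : ∀ f, A (B f) = f := by intro f; ext x; rw [hA, hB]
  have hAle : ∀ g, ‖A g‖ ≤ ‖g‖ := by
    intro g
    apply ContinuousLinearMap.opNorm_le_bound _ (norm_nonneg _)
    intro x
    rw [hA]
    calc ‖g (e x)‖ ≤ ‖g‖ * ‖e x‖ := g.le_opNorm _
      _ ≤ _ := by gcongr; exact h1 _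
  have hAge : ∀ g, ‖g‖ ≤ 1.01 * ‖A g‖ := by
    intro g
    apply ContinuousLinearMap.opNorm_le_bound _ (by positivity)
    intro y
    obtain ⟨x, rfl⟩ := e.surjective y
    rw [← hA]
    calc ‖A g x‖ ≤ ‖A g‖ * ‖x‖ := (A g).le_opNorm _
      _ ≤ ‖A g‖ * (1.01 * ‖e x‖) := by gcongr; exact h2 _
      _ = _ := by ring
  let J : (X →L[ℝ] ℝ) →L[ℝ] (X →L[ℝ] ℝ) := B.comp (J0.comp A)
  have hAJ : ∀ g, A (J g) = J0 (A g) := by intro g; simp [J, hAB]
  have hJn : 1 ≤ ‖J‖ * 1.01 := by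
    calc (1 : ℝ) ≤ ‖J0 f0‖ := hJf0
      _ = ‖A (J (B f0))‖ := by rw [hAJ, hAB]
      _ ≤ ‖J (B f0)‖ := hAle _
      _ ≤ ‖J‖ * ‖B f0‖ := J.le_opNorm _
      _ ≤ ‖J‖ * (1.01 * ‖A (B f0)‖) := by gcongr; exact hAge _
      _ ≤ ‖J‖ * (1.01 * 1) := by rw [hAB]; gcongr
      _ = _ := by ring
  apply ni_le_of J hJn
  intro s hs y
  calc ‖y + s • J y‖ ≤ 1.01 * ‖A (y + s • J y)‖ := hAge _
      _ = 1.01 * ‖A y + s • J0 (A y)‖ := by rw [map_add, map_smul, hAJ]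
      _ ≤ 1.01 * (1.51 * ‖A y‖) := by gcongr; exact hJ s hs _
      _ ≤ 1.01 * (1.51 * ‖y‖) := by gcongr; exact hAle _

/-- Uniqueness of the predual when enough points are exposed in a locally linear way. -/
theorem unique_predual {X X' : Type} [NormedAddCommGroup X] [NormedSpace ℝ X] [CompleteSpace X]
    [NormedAddCommGroup X'] [NormedSpace ℝ X'] [CompleteSpace X']
    (D : Set X) (hD : (Submodule.span ℝ D).topologicalClosure = ⊤)
    (hloc : ∀ u ∈ D, ‖u‖ ≤ 1 ∧ ∃ (g0 : X →L[ℝ] ℝ) (δ : ℝ), 0 < δ ∧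
      ∀ g : X →L[ℝ] ℝ, ‖g - g0‖ ≤ δ → ‖g‖ ≤ g u)
    (Φ : (X' →L[ℝ] ℝ) ≃ₗᵢ[ℝ] (X →L[ℝ] ℝ)) : Nonempty (X ≃ₗᵢ[ℝ] X') := by
  let j : X →ₗᵢ[ℝ] ((X →L[ℝ] ℝ) →L[ℝ] ℝ) := NormedSpace.inclusionInDoubleDualLi ℝ
  have hj : ∀ x y, j x y = y x := fun x y => rfl
  let i' : X' →ₗᵢ[ℝ] ((X' →L[ℝ] ℝ) →L[ℝ] ℝ) := NormedSpace.inclusionInDoubleDualLi ℝ
  have hi' : ∀ x y, i' x y = y x := fun x y => rfl
  let j' : X' →ₗᵢ[ℝ] ((X →L[ℝ] ℝ) →L[ℝ] ℝ) :=
    { toFun := fun x => (i' x).comp (Φ.symm.toLinearIsometry.toContinuousLinearMap)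
      map_add' := by intro x y; ext f; simp
      map_smul' := by intro c x; ext f; simp
      norm_map' := by
        intro x
        have := ContinuousLinearMap.opNorm_comp_linearIsometryEquiv (i' x) Φ.symm
        exact this.trans (i'.norm_map x) }
  have hj' : ∀ x y, j' x y = (Φ.symm y) x := fun x y => rfl
  have hDmem : ∀ u ∈ D, j u ∈ Set.range j' := by
    intro u hu
    obtain ⟨hu1, g0, δ, hδ, hg⟩ := hloc u hu
    refine mem_range_li (Z := (X →L[ℝ] ℝ) →L[ℝ] ℝ) j' _ ?_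
    intro ε hε
    have hη : 0 < ε / 2 * δ := by positivity
    have hlt : ‖g0‖ - ε / 2 * δ < ‖Φ.symm g0‖ := by rw [Φ.symm.norm_map]; linarith
    have : ∃ x' : X', ‖x'‖ ≤ 1 ∧ ‖g0‖ - ε / 2 * δ < Φ.symm g0 x' := by
      obtain ⟨x', hx', hx''⟩ := (Φ.symm g0).exists_lt_apply_of_lt_opNorm hlt
      rcases le_total 0 (Φ.symm g0 x') with h | h
      · exact ⟨x', hx'.le, by rwa [Real.norm_eq_abs, abs_of_nonneg h] at hx''⟩
      · refine ⟨-x', by simpa using hx'.le, ?_⟩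
        rw [map_neg]; rwa [Real.norm_eq_abs, abs_of_nonpos h] at hx''
    obtain ⟨x', hx', hx''⟩ := this
    refine ⟨x', ?_⟩
    have hone : ∀ h : X →L[ℝ] ℝ, ‖h‖ ≤ δ → j' x' h - h u ≤ ε / 2 * δ := by
      intro h hh
      have a1 : j' x' (g0 + h) ≤ ‖g0 + h‖ := by
        calc j' x' (g0 + h) ≤ ‖j' x' (g0 + h)‖ := le_abs_self _
          _ ≤ ‖j' x'‖ * ‖g0 + h‖ := (j' x').le_opNorm _
          _ ≤ 1 * ‖g0 + h‖ := by rw [j'.norm_map]; gcongr
          _ = _ := one_mul _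
      have a2 : ‖g0 + h‖ ≤ (g0 + h) u := hg _ (by simpa using hh)
      have a3 : g0 u ≤ ‖g0‖ := by
        calc g0 u ≤ ‖g0 u‖ := le_abs_self _
          _ ≤ ‖g0‖ * ‖u‖ := g0.le_opNorm _
          _ ≤ ‖g0‖ * 1 := by gcongr
          _ = _ := mul_one _
      rw [map_add, hj' x' g0] at a1
      rw [add_apply] at a2
      linarith
    have hnorm : ‖j u - j' x'‖ ≤ ε / 2 := by
      apply ContinuousLinearMap.opNorm_le_of_unit_norm (by positivity)
      intro h hh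
      have b1 := hone (δ • h) (by rw [norm_smul, hh, Real.norm_eq_abs, abs_of_pos hδ, mul_one])
      have b2 := hone (-(δ • h))
        (by rw [norm_neg, norm_smul, hh, Real.norm_eq_abs, abs_of_pos hδ, mul_one])
      rw [map_smul, smul_apply, smul_eq_mul, smul_eq_mul] at b1
      rw [map_neg, map_smul, neg_apply, smul_apply,
        smul_eq_mul, smul_eq_mul] at b2
      rw [sub_apply, hj, Real.norm_eq_abs, abs_le]
      constructor
      · by_contra hc; push Not at hc; nlinarith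
      · by_contra hc; push Not at hc; nlinarith
    exact hnorm
  have hall : ∀ x, j x ∈ Set.range j' := all_mem_range (Z := (X →L[ℝ] ℝ) →L[ℝ] ℝ) j j' D hD hDmem
  choose θ hθ using hall
  let θL : X →ₗᵢ[ℝ] X' :=
    { toFun := θ
      map_add' := by
        intro x y
        apply j'.injective
        rw [map_add, hθ, hθ, hθ, map_add]
      map_smul' := by
        intro c x
        apply j'.injective
        rw [RingHom.id_apply, map_smul, hθ, hθ, map_smul]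
      norm_map' := by
        intro x
        show ‖θ x‖ = ‖x‖
        rw [← j'.norm_map, hθ, j.norm_map] }
  have hsurj : Function.Surjective θL := by
    intro x'
    by_contra hx'
    have hcl : IsClosed (Set.range θL) := θL.isometry.isClosedEmbedding.isClosed_range
    have hconv : Convex ℝ (Set.range θL) := (LinearMap.range θL.toLinearMap).convex
    obtain ⟨g, c, hgc, hgr⟩ := geometric_hahn_banach_point_closed hconv hcl hx'
    have hg0 : ∀ x, g (θL x) = 0 := by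
      intro x
      by_contra hne
      have := hgr (θL (((c - 1) / g (θL x)) • x)) ⟨_, rfl⟩
      rw [map_smul, map_smul, smul_eq_mul, div_mul_cancel₀ _ hne] at this
      linarith
    have hy : Φ g = 0 := by
      ext x
      have := hj' (θ x) (Φ g)
      rw [hθ, hj, Φ.symm_apply_apply] at this
      rw [this]; exact hg0 x
    have hgz : g = 0 := by
      apply Φ.injective; rw [hy, map_zero]
    have h0 := hgr (θL 0) ⟨_, rfl⟩
    rw [hgz] at h0 hgc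
    simp at h0 hgc
    linarith
  exact ⟨LinearIsometryEquiv.ofSurjective θL hsurj⟩

/-- Renorming by adding spikes to the unit ball. -/
theorem renorm {X0 : Type} [NormedAddCommGroup X0] [NormedSpace ℝ X0] [CompleteSpace X0]
    (S : Set X0) (hS : ∀ a ∈ S, ‖a‖ ≤ 1.01) :
    ∃ (X : Type) (_ : NormedAddCommGroup X) (_ : NormedSpace ℝ X) (_ : CompleteSpace X)
      (e : X0 ≃L[ℝ] X), (∀ x, ‖e x‖ ≤ ‖x‖) ∧ (∀ x, ‖x‖ ≤ 1.01 * ‖e x‖) ∧ (∀ a ∈ S, ‖e a‖ ≤ 1) ∧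
      ∀ (g : X →L[ℝ] ℝ) (c : ℝ), 0 < c → ‖g.comp (e : X0 →L[ℝ] X)‖ ≤ c →
        (∀ a ∈ S, |g (e a)| ≤ c) → ‖g‖ ≤ c := by
  let P : Type := {y : X0 →L[ℝ] ℝ // ‖y‖ ≤ 1 ∧ ∀ a ∈ S, |y a| ≤ 1}
  have hb : ∀ (x : X0) (y : P), ‖y.1 x‖ ≤ ‖x‖ := by
    intro x y
    calc ‖y.1 x‖ ≤ ‖y.1‖ * ‖x‖ := y.1.le_opNorm _
      _ ≤ 1 * ‖x‖ := by gcongr; exact y.2.1
      _ = _ := one_mul _
  have hcont : ∀ x : X0, Continuous (fun y : P => y.1 x) := fun x =>
    (ContinuousLinearMap.apply ℝ ℝ x).continuous.comp continuous_subtype_val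
  let ι : X0 →ₗ[ℝ] BoundedContinuousFunction P ℝ :=
    { toFun := fun x => BoundedContinuousFunction.ofNormedAddCommGroup (fun y : P => y.1 x)
        (hcont x) ‖x‖ (hb x)
      map_add' := by intro x y; ext z; simp
      map_smul' := by intro c x; ext z; simp }
  have hι : ∀ x (y : P), ι x y = y.1 x := fun x y => rfl
  have hup : ∀ x, ‖ι x‖ ≤ ‖x‖ := fun x =>
    (BoundedContinuousFunction.norm_le (norm_nonneg _)).2 (hb x)
  have hlow : ∀ x, ‖x‖ ≤ 1.01 * ‖ι x‖ := by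
    intro x
    obtain ⟨f, hf, hfx⟩ := exists_dual_vector'' ℝ x
    have hfx' : f x = ‖x‖ := by simpa using hfx
    let y : P := ⟨(1.01 : ℝ)⁻¹ • f, by
      constructor
      · rw [norm_smul, Real.norm_eq_abs, abs_of_pos (by norm_num)]
        nlinarith [norm_nonneg f]
      · intro a ha
        rw [smul_apply, smul_eq_mul, abs_mul, abs_of_pos (by norm_num)]
        have : |f a| ≤ 1.01 := by
          calc |f a| ≤ ‖f‖ * ‖a‖ := f.le_opNorm _
            _ ≤ 1 * 1.01 := by gcongr; exact hS a ha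
            _ = _ := one_mul _
        nlinarith⟩
    have := (ι x).norm_coe_le_norm y
    rw [hι] at this
    simp only [y, smul_apply, smul_eq_mul, hfx', Real.norm_eq_abs] at this
    have h3 := le_abs_self ((1.01 : ℝ)⁻¹ * ‖x‖)
    nlinarith
  have hinj : Function.Injective ι := by
    rw [← LinearMap.ker_eq_bot, LinearMap.ker_eq_bot']
    intro x hx
    have := hlow x
    rw [hx, norm_zero, mul_zero] at this
    exact norm_le_zero_iff.1 this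
  let e0 : X0 ≃ₗ[ℝ] LinearMap.range ι := LinearEquiv.ofInjective ι hinj
  have he0 : ∀ x, ‖e0 x‖ = ‖ι x‖ := fun x => rfl
  have hb1 : ∀ x, ‖e0 x‖ ≤ 1 * ‖x‖ := fun x => by rw [he0, one_mul]; exact hup x
  have hb2 : ∀ y, ‖e0.symm y‖ ≤ 1.01 * ‖y‖ := fun y => by
    obtain ⟨x, rfl⟩ := e0.surjective y
    rw [e0.symm_apply_apply, he0]; exact hlow x
  let e : X0 ≃L[ℝ] LinearMap.range ι := LinearEquiv.toContinuousLinearEquivOfBounds
    (E := X0) (F := LinearMap.range ι) e0 1 1.01 hb1 hb2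
  have he : ∀ x, ‖e x‖ = ‖ι x‖ := fun x => rfl
  have hcomp : CompleteSpace (LinearMap.range ι) :=
    complete_of_equiv (Z := LinearMap.range ι) e
  refine ⟨LinearMap.range ι, inferInstance, inferInstance, hcomp, e, fun x => hup x,
    fun x => hlow x, ?_, ?_⟩
  · intro a ha
    rw [he]
    exact (BoundedContinuousFunction.norm_le zero_le_one).2 fun y => y.2.2 a ha
  · intro g c hc hg hga
    apply ContinuousLinearMap.opNorm_le_bound _ hc.le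
    intro z
    obtain ⟨x, rfl⟩ := e.surjective z
    let y : P := ⟨c⁻¹ • g.comp (e : X0 →L[ℝ] LinearMap.range ι), by
      constructor
      · rw [norm_smul, Real.norm_eq_abs, abs_of_pos (inv_pos.2 hc), inv_mul_le_iff₀ hc, mul_one]
        exact hg
      · intro a ha
        rw [smul_apply, smul_eq_mul, abs_mul, abs_of_pos (inv_pos.2 hc),
          inv_mul_le_iff₀ hc, mul_one]
        exact hga a ha⟩
    have := (ι x).norm_coe_le_norm y
    rw [hι] at this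
    simp only [y, smul_apply, smul_eq_mul, norm_mul, norm_inv,
      Real.norm_eq_abs, abs_of_pos hc, inv_mul_le_iff₀ hc] at this
    rw [he]
    exact this

end Pool.Agent.P.MP_349896_an
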