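import Mathlib
import Pool.Agent.P.MP_349896_an.General

set_option autoImplicit false

namespace Pool.Agent.P.MP_349896_an

open Filter Topology

/-- Sum of the three limits. -/
noncomputable def phi : C(OnePoint ℕ, Fin 3 → ℝ) →L[ℝ] ℝ :=
  ((ContinuousLinearMap.proj 0 : (Fin 3 → ℝ) →L[ℝ] ℝ) + ContinuousLinearMap.proj 1
    + ContinuousLinearMap.proj 2).comp (ContinuousMap.evalCLM ℝ OnePoint.infty)

/-- Triples of convergent sequences with the sum of the limits equal to zero. -/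
def XX : Type := LinearMap.ker phi.toLinearMap

noncomputable instance instNacgXX : NormedAddCommGroup XX :=
  Submodule.normedAddCommGroup (LinearMap.ker phi.toLinearMap)

noncomputable instance instNsXX : NormedSpace ℝ XX :=
  Submodule.normedSpace (LinearMap.ker phi.toLinearMap)

instance instCsXX : CompleteSpace XX := phi.isClosed_ker.completeSpace_coe

/-- The inclusion into the space of continuous functions. -/
noncomputable def incl : XX →L[ℝ] C(OnePoint ℕ, Fin 3 → ℝ) :=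
  (LinearMap.ker phi.toLinearMap).subtypeL

/-- Evaluation functionals. -/
noncomputable def ev (p : OnePoint ℕ) (i : Fin 3) : XX →L[ℝ] ℝ :=
  (ContinuousLinearMap.proj i : (Fin 3 → ℝ) →L[ℝ] ℝ).comp
    ((ContinuousMap.evalCLM ℝ p).comp incl)

theorem ev_apply (p : OnePoint ℕ) (i : Fin 3) (x : XX) : ev p i x = x.1 p i := rfl

theorem abs_ev_le (p : OnePoint ℕ) (i : Fin 3) (x : XX) : |ev p i x| ≤ ‖x‖ := by
  rw [ev_apply]
  calc |x.1 p i| ≤ ‖x.1 p‖ := norm_le_pi_norm (x.1 p) i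
    _ ≤ ‖x.1‖ := x.1.norm_coe_le_norm p

theorem norm_ev_le (p : OnePoint ℕ) (i : Fin 3) : ‖ev p i‖ ≤ 1 := by
  apply ContinuousLinearMap.opNorm_le_bound _ zero_le_one
  intro x
  rw [one_mul]
  exact abs_ev_le p i x

theorem tendsto_ev (i : Fin 3) (x : XX) :
    Tendsto (fun n : ℕ => ev (n : OnePoint ℕ) i x) atTop (𝓝 (ev OnePoint.infty i x)) := by
  have h := (OnePoint.continuous_iff_from_nat x.1).1 x.1.continuous
  exact (continuous_apply i).continuousAt.tendsto.comp h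

theorem sum_ev (x : XX) :
    ev OnePoint.infty 0 x + ev OnePoint.infty 1 x + ev OnePoint.infty 2 x = 0 := x.2

theorem norm_le_of (x : XX) (c : ℝ) (hc : 0 ≤ c) (h : ∀ (n : ℕ) (i : Fin 3), |ev n i x| ≤ c) :
    ‖x‖ ≤ c := by
  show ‖x.1‖ ≤ c
  rw [ContinuousMap.norm_le _ hc]
  intro p
  rw [pi_norm_le_iff_of_nonneg hc]
  intro i
  induction p using OnePoint.rec with
  | infty => exact le_of_tendsto' (tendsto_ev i x).abs fun n => h n i
  | coe n => exact h n i

/-- Constructor. -/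
noncomputable def mk (f : ℕ → Fin 3 → ℝ) (a : Fin 3 → ℝ) (h : Tendsto f atTop (𝓝 a))
    (ha : a 0 + a 1 + a 2 = 0) : XX :=
  ⟨OnePoint.continuousMapMkNat f a h, ha⟩

theorem ev_mk (f : ℕ → Fin 3 → ℝ) (a : Fin 3 → ℝ) (h : Tendsto f atTop (𝓝 a))
    (ha : a 0 + a 1 + a 2 = 0) (n : ℕ) (i : Fin 3) : ev n i (mk f a h ha) = f n i := rfl

theorem ev_mk_infty (f : ℕ → Fin 3 → ℝ) (a : Fin 3 → ℝ) (h : Tendsto f atTop (𝓝 a))
    (ha : a 0 + a 1 + a 2 = 0) (i : Fin 3) : ev OnePoint.infty i (mk f a h ha) = a i := rfl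

/-- Unit vectors. -/
noncomputable def uv (n : ℕ) (i : Fin 3) : XX :=
  mk (fun m j => if m = n ∧ j = i then 1 else 0) 0
    (tendsto_const_nhds.congr' (by
      filter_upwards [eventually_gt_atTop n] with m hm
      ext j
      simp [hm.ne'])) (by simp)

theorem ev_uv (n m : ℕ) (i j : Fin 3) :
    ev m j (uv n i) = if m = n ∧ j = i then 1 else 0 := rfl

theorem ev_uv_infty (n : ℕ) (i j : Fin 3) : ev OnePoint.infty j (uv n i) = 0 := rfl

theorem norm_uv (n : ℕ) (i : Fin 3) : ‖uv n i‖ ≤ 1 := by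
  apply norm_le_of _ _ zero_le_one
  intro m j
  rw [ev_uv]
  split_ifs <;> simp

/-- Tails of constant vectors. -/
noncomputable def tl (a : Fin 3 → ℝ) (ha : a 0 + a 1 + a 2 = 0) (N : ℕ) : XX :=
  mk (fun m => if N ≤ m then a else 0) a
    (tendsto_const_nhds.congr' (by
      filter_upwards [eventually_ge_atTop N] with m hm
      simp [hm])) ha

theorem ev_tl (a : Fin 3 → ℝ) (ha : a 0 + a 1 + a 2 = 0) (N m : ℕ) (j : Fin 3) :
    ev m j (tl a ha N) = if N ≤ m then a j else 0 := by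
  rw [tl, ev_mk]; split_ifs <;> simp

theorem ev_tl_infty (a : Fin 3 → ℝ) (ha : a 0 + a 1 + a 2 = 0) (N : ℕ) (j : Fin 3) :
    ev OnePoint.infty j (tl a ha N) = a j := rfl

/-- First tail vector. -/
noncomputable def t0 (N : ℕ) : XX := tl ![1, 0, -1] (by simp) N
/-- Second tail vector. -/
noncomputable def t1 (N : ℕ) : XX := tl ![0, 1, -1] (by simp) N

theorem norm_t0 (N : ℕ) : ‖t0 N‖ ≤ 1 := by
  apply norm_le_of _ _ zero_le_one
  intro m j
  rw [t0, ev_tl]
  split_ifs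
  · fin_cases j <;> simp
  · simp

theorem norm_t1 (N : ℕ) : ‖t1 N‖ ≤ 1 := by
  apply norm_le_of _ _ zero_le_one
  intro m j
  rw [t1, ev_tl]
  split_ifs
  · fin_cases j <;> simp
  · simp

/-- The alternative Daugavet equation for all operators on `XX`. -/
theorem adp (T : XX →L[ℝ] XX) (c : ℝ) (hc : c < ‖T‖) (t : ℝ) (ht : 0 ≤ t) :
    ∃ (s : ℝ) (x : XX), |s| = t ∧ ‖x‖ ≤ 1 ∧ 1 + t * c ≤ ‖x + s • T x‖ := by
  obtain ⟨x, hx, hTx⟩ := T.exists_lt_apply_of_lt_opNorm hc
  have hx1 : ‖x‖ ≤ 1 := hx.le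
  have : ∃ (n : ℕ) (i : Fin 3), c ≤ |ev n i (T x)| := by
    by_contra hcon
    push Not at hcon
    have h0 : 0 ≤ c := (abs_nonneg _).trans (hcon 0 0).le
    have := norm_le_of (T x) c h0 fun n i => (hcon n i).le
    linarith
  obtain ⟨n, i, hni⟩ := this
  have hmod : ∀ σ : ℝ, |σ| = 1 → ‖x + (σ - ev n i x) • uv n i‖ ≤ 1 := by
    intro σ hσ
    apply norm_le_of _ _ zero_le_one
    intro m j
    rw [map_add, map_smul, ev_uv, smul_eq_mul]
    split_ifs with h
    · obtain ⟨rfl, rfl⟩ := h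
      rw [mul_one, add_sub_cancel, hσ]
    · rw [mul_zero, add_zero]; exact (abs_ev_le _ _ _).trans hx1
  have hval : ∀ σ : ℝ, ev n i (x + (σ - ev n i x) • uv n i) = σ := by
    intro σ
    rw [map_add, map_smul, ev_uv, smul_eq_mul]
    simp
  have hr : |ev n i x| ≤ 1 := (abs_ev_le _ _ _).trans hx1
  set r := ev n i x with hrdef
  set A := ev n i (T x) with hA
  set B := ev n i (T (uv n i)) with hB
  have hT : ∀ σ : ℝ, ev n i (T (x + (σ - r) • uv n i)) = A + (σ - r) * B := by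
    intro σ
    rw [map_add, map_smul, map_add, map_smul, smul_eq_mul]
  have hex : ∃ σ : ℝ, |σ| = 1 ∧ c ≤ |A + (σ - r) * B| := by
    rw [abs_le] at hr
    by_cases h : 0 ≤ A * B
    · refine ⟨1, by simp, hni.trans ?_⟩
      apply sq_le_sq.1
      nlinarith [sq_nonneg ((1 - r) * B), mul_nonneg h (sub_nonneg.2 hr.2)]
    · refine ⟨-1, by simp, hni.trans ?_⟩
      push Not at h
      apply sq_le_sq.1
      nlinarith [sq_nonneg ((-1 - r) * B), mul_nonneg (neg_nonneg.2 h.le) (by linarith : 0 ≤ 1 + r)]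
  obtain ⟨σ, hσ, hcσ⟩ := hex
  set Q := A + (σ - r) * B with hQ
  have hsgn : ∃ s : ℝ, |s| = t ∧ |σ + s * Q| = 1 + t * |Q| := by
    rcases abs_eq (zero_le_one) |>.1 hσ with h | h
    · rcases le_total 0 Q with hq | hq
      · refine ⟨t, abs_of_nonneg ht, ?_⟩
        rw [h, abs_of_nonneg hq, abs_of_nonneg (by positivity)]
      · refine ⟨-t, by rw [abs_neg, abs_of_nonneg ht], ?_⟩
        rw [h, abs_of_nonpos hq, abs_of_nonneg (by nlinarith)]; ring
    · rcases le_total 0 Q with hq | hq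
      · refine ⟨-t, by rw [abs_neg, abs_of_nonneg ht], ?_⟩
        rw [h, abs_of_nonneg hq, abs_of_nonpos (by nlinarith)]; ring
      · refine ⟨t, abs_of_nonneg ht, ?_⟩
        rw [h, abs_of_nonpos hq, abs_of_nonpos (by nlinarith)]; ring
  obtain ⟨s, hs, hs'⟩ := hsgn
  refine ⟨s, x + (σ - r) • uv n i, hs, hmod σ hσ, ?_⟩
  refine le_trans ?_ (abs_ev_le n i _)
  rw [map_add (ev n i), map_smul (ev n i), hval, hT, smul_eq_mul, hs']
  gcongr

theorem exists_ulim {X : Type} [NormedAddCommGroup X] [NormedSpace ℝ X] (τ : ℕ → X)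
    (hτ : ∀ n, ‖τ n‖ ≤ 1) :
    ∃ β : (X →L[ℝ] ℝ) →L[ℝ] ℝ, ∀ f : X →L[ℝ] ℝ,
      Tendsto (fun n => f (τ n)) (hyperfilter ℕ) (𝓝 (β f)) := by
  have hb : ∀ (f : X →L[ℝ] ℝ) (n : ℕ), |f (τ n)| ≤ ‖f‖ := by
    intro f n
    calc |f (τ n)| ≤ ‖f‖ * ‖τ n‖ := f.le_opNorm _
      _ ≤ ‖f‖ * 1 := by gcongr; exact hτ n
      _ = _ := mul_one _
  have hex : ∀ f : X →L[ℝ] ℝ, ∃ b : ℝ, Tendsto (fun n => f (τ n)) (hyperfilter ℕ) (𝓝 b) := by
    intro f
    have hc : IsCompact (Set.Icc (-‖f‖) ‖f‖) := isCompact_Icc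
    obtain ⟨b, -, hb'⟩ := hc.ultrafilter_le_nhds ((hyperfilter ℕ).map fun n => f (τ n)) (by
      rw [Ultrafilter.coe_map, le_principal_iff, mem_map]
      exact Filter.univ_mem' fun n => abs_le.1 (hb f n))
    exact ⟨b, hb'⟩
  choose b hb' using hex
  let L : (X →L[ℝ] ℝ) →ₗ[ℝ] ℝ :=
    { toFun := b
      map_add' := fun f g => tendsto_nhds_unique (hb' (f + g)) ((hb' f).add (hb' g))
      map_smul' := fun c f => tendsto_nhds_unique (hb' (c • f)) ((hb' f).const_smul c) }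
  refine ⟨L.mkContinuous 1 fun f => ?_, hb'⟩
  rw [one_mul]
  exact le_of_tendsto' (hb' f).abs fun n => hb f n

theorem exists_J : ∃ (J0 : (XX →L[ℝ] ℝ) →L[ℝ] (XX →L[ℝ] ℝ)),
    (∀ (s : ℝ), |s| = 1 → ∀ f, ‖f + s • J0 f‖ ≤ 1.51 * ‖f‖) ∧
    ∃ f0 : XX →L[ℝ] ℝ, ‖f0‖ ≤ 1 ∧ 1 ≤ ‖J0 f0‖ := by
  obtain ⟨β0, hβ0⟩ := exists_ulim t0 norm_t0
  obtain ⟨β1, hβ1⟩ := exists_ulim t1 norm_t1
  let b0 : XX →L[ℝ] ℝ := (1 / 2 : ℝ) • (ev OnePoint.infty 1 - ev OnePoint.infty 2)
  let b1 : XX →L[ℝ] ℝ := (1 / 2 : ℝ) • (ev OnePoint.infty 2 - ev OnePoint.infty 0)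
  have hb0 : ∀ x, b0 x = (1 / 2 : ℝ) * (ev OnePoint.infty 1 x - ev OnePoint.infty 2 x) :=
    fun x => rfl
  have hb1 : ∀ x, b1 x = (1 / 2 : ℝ) * (ev OnePoint.infty 2 x - ev OnePoint.infty 0 x) :=
    fun x => rfl
  refine ⟨β0.smulRight b0 + β1.smulRight b1, ?_, ev OnePoint.infty 0, norm_ev_le _ _, ?_⟩
  · intro s hs f
    apply ContinuousLinearMap.opNorm_le_of_unit_norm (by positivity)
    intro x hx
    have hval : (f + s • (β0.smulRight b0 + β1.smulRight b1) f) x
        = f x + s * (b0 x * β0 f + b1 x * β1 f) := by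
      simp only [add_apply, smul_apply, ContinuousLinearMap.smulRight_apply, smul_eq_mul]
      ring
    rw [hval]
    have hlim : Tendsto (fun N => f (x + s • (b0 x • t0 N + b1 x • t1 N))) (hyperfilter ℕ)
        (𝓝 (f x + s * (b0 x * β0 f + b1 x * β1 f))) := by
      simp only [map_add, map_smul, smul_eq_mul]
      exact tendsto_const_nhds.add
        ((((hβ0 f).const_mul _).add ((hβ1 f).const_mul _)).const_mul _)
    have hev : ∀ᶠ N in atTop, ‖x + s • (b0 x • t0 N + b1 x • t1 N)‖ ≤ 1.51 := by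
      have h1 : ∀ᶠ n : ℕ in atTop, ∀ i : Fin 3,
          |ev (n : OnePoint ℕ) i x - ev OnePoint.infty i x| ≤ 0.01 := by
        rw [eventually_all]
        intro i
        have := (Metric.tendsto_nhds.1 (tendsto_ev i x)) 0.01 (by norm_num)
        filter_upwards [this] with n hn
        rw [Real.dist_eq] at hn
        exact hn.le
      obtain ⟨N0, hN0⟩ := eventually_atTop.1 h1
      filter_upwards [eventually_ge_atTop N0] with N hN
      apply norm_le_of _ _ (by norm_num)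
      intro m j
      simp only [map_add, map_smul, smul_eq_mul, t0, t1, ev_tl]
      split_ifs with hm
      · have h2 := hN0 m (hN.trans hm) j
        have a0 := abs_ev_le OnePoint.infty 0 x
        have a1 := abs_ev_le OnePoint.infty 1 x
        have a2 := abs_ev_le OnePoint.infty 2 x
        have hsum := sum_ev x
        rw [hx] at a0 a1 a2
        rw [abs_le] at a0 a1 a2 h2 ⊢
        rw [hb0, hb1]
        rcases abs_eq (zero_le_one) |>.1 hs with h | h <;> subst h <;> fin_cases j <;>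
          simp at h2 ⊢ <;> constructor <;> linarith
      · have := abs_ev_le m j x
        rw [hx] at this
        simp only [mul_zero, add_zero]
        linarith
    have hev' : ∀ᶠ N in (hyperfilter ℕ : Filter ℕ),
        ‖f (x + s • (b0 x • t0 N + b1 x • t1 N))‖ ≤ 1.51 * ‖f‖ := by
      have : ∀ᶠ N in (hyperfilter ℕ : Filter ℕ), ‖x + s • (b0 x • t0 N + b1 x • t1 N)‖ ≤ 1.51 :=
        (Nat.hyperfilter_le_atTop) hev
      filter_upwards [this] with N hN
      calc _ ≤ ‖f‖ * ‖x + s • (b0 x • t0 N + b1 x • t1 N)‖ := f.le_opNorm _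
        _ ≤ ‖f‖ * 1.51 := by gcongr
        _ = _ := mul_comm _ _
    exact le_of_tendsto hlim.norm hev'
  · have h0 : β0 (ev OnePoint.infty 0) = 1 :=
      tendsto_nhds_unique (hβ0 _) (by simp [t0, ev_tl_infty])
    have h1 : β1 (ev OnePoint.infty 0) = 0 :=
      tendsto_nhds_unique (hβ1 _) (by simp [t1, ev_tl_infty])
    have h2 : (β0.smulRight b0 + β1.smulRight b1) (ev OnePoint.infty 0) = b0 := by
      simp [h0, h1]
    rw [h2]
    have h3 : b0 (t1 0) = 1 := by
      rw [hb0, t1, ev_tl_infty, ev_tl_infty]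
      show (1 / 2 : ℝ) * (1 - -1) = 1
      norm_num
    calc (1 : ℝ) = ‖b0 (t1 0)‖ := by rw [h3, norm_one]
      _ ≤ ‖b0‖ * ‖t1 0‖ := b0.le_opNorm _
      _ ≤ ‖b0‖ * 1 := by gcongr; exact norm_t1 0
      _ = _ := mul_one _

/-- The spikes. -/
def spikes : Set XX :=
  {a | (∃ n i, a = (1.01 : ℝ) • uv n i) ∨ a = (1.005 : ℝ) • t0 0 ∨ a = (1.005 : ℝ) • t1 0}

theorem spikes_dense : (Submodule.span ℝ spikes).topologicalClosure = ⊤ := by
  rw [eq_top_iff]
  intro x _
  have huv : ∀ n i, uv n i ∈ Submodule.span ℝ spikes := by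
    intro n i
    have : uv n i = (1.01 : ℝ)⁻¹ • ((1.01 : ℝ) • uv n i) := by
      rw [smul_smul, inv_mul_cancel₀ (by norm_num), one_smul]
    rw [this]
    exact Submodule.smul_mem _ _ (Submodule.subset_span (Or.inl ⟨n, i, rfl⟩))
  have ht0 : t0 0 ∈ Submodule.span ℝ spikes := by
    have : t0 0 = (1.005 : ℝ)⁻¹ • ((1.005 : ℝ) • t0 0) := by
      rw [smul_smul, inv_mul_cancel₀ (by norm_num), one_smul]
    rw [this]
    exact Submodule.smul_mem _ _ (Submodule.subset_span (Or.inr (Or.inl rfl)))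
  have ht1 : t1 0 ∈ Submodule.span ℝ spikes := by
    have : t1 0 = (1.005 : ℝ)⁻¹ • ((1.005 : ℝ) • t1 0) := by
      rw [smul_smul, inv_mul_cancel₀ (by norm_num), one_smul]
    rw [this]
    exact Submodule.smul_mem _ _ (Submodule.subset_span (Or.inr (Or.inr rfl)))
  show x ∈ closure (Submodule.span ℝ spikes : Set XX)
  rw [Metric.mem_closure_iff]
  intro ε hε
  have h1 : ∀ᶠ n : ℕ in atTop, ∀ i : Fin 3,
      |ev (n : OnePoint ℕ) i x - ev OnePoint.infty i x| ≤ ε / 2 := by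
    rw [eventually_all]
    intro i
    have := (Metric.tendsto_nhds.1 (tendsto_ev i x)) (ε / 2) (by positivity)
    filter_upwards [this] with n hn
    rw [Real.dist_eq] at hn
    exact hn.le
  obtain ⟨N, hN⟩ := eventually_atTop.1 h1
  refine ⟨ev OnePoint.infty 0 x • t0 0 + ev OnePoint.infty 1 x • t1 0 +
    ∑ n ∈ Finset.range N, ∑ i : Fin 3, (ev (n : ℕ) i x - ev OnePoint.infty i x) • uv n i, ?_, ?_⟩
  · exact Submodule.add_mem _
      (Submodule.add_mem _ (Submodule.smul_mem _ _ ht0) (Submodule.smul_mem _ _ ht1))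
      (Submodule.sum_mem _ fun n _ => Submodule.sum_mem _ fun i _ =>
        Submodule.smul_mem _ _ (huv n i))
  · rw [dist_eq_norm]
    refine lt_of_le_of_lt (norm_le_of _ (ε / 2) (by positivity) ?_) (by linarith)
    intro m j
    have hc : ev m j (ev OnePoint.infty 0 x • t0 0 + ev OnePoint.infty 1 x • t1 0)
        = ev OnePoint.infty j x := by
      have hsum := sum_ev x
      simp only [map_add, map_smul, smul_eq_mul, t0, t1, ev_tl]
      fin_cases j <;> simp
      linarith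
    have hs : ev m j (∑ n ∈ Finset.range N, ∑ i : Fin 3,
        (ev (n : ℕ) i x - ev OnePoint.infty i x) • uv n i)
        = if m < N then ev m j x - ev OnePoint.infty j x else 0 := by
      simp only [map_sum, map_smul, smul_eq_mul, ev_uv, mul_ite, mul_one, mul_zero, ite_and]
      simp [Finset.sum_ite_eq]
    rw [map_sub, map_add, hc, hs]
    split_ifs with hm
    · simp; positivity
    · rw [add_zero]; exact hN m (not_lt.1 hm) j

theorem spikes_norm : ∀ a ∈ spikes, ‖a‖ ≤ 1.01 := by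
  rintro a (⟨n, i, rfl⟩ | rfl | rfl)
  · rw [norm_smul, Real.norm_eq_abs, abs_of_pos (by norm_num)]
    have := norm_uv n i
    nlinarith
  · rw [norm_smul, Real.norm_eq_abs, abs_of_pos (by norm_num)]
    have := norm_t0 0
    nlinarith
  · rw [norm_smul, Real.norm_eq_abs, abs_of_pos (by norm_num)]
    have := norm_t1 0
    nlinarith

theorem spikes_loc : ∀ u ∈ spikes, ∃ f0 : XX →L[ℝ] ℝ, ∀ f : XX →L[ℝ] ℝ, ‖f - f0‖ ≤ 0.001 →
    0 < f u ∧ ‖f‖ ≤ f u ∧ ∀ a ∈ spikes, |f a| ≤ f u := by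
  have near : ∀ (f f0 : XX →L[ℝ] ℝ), ‖f - f0‖ ≤ 0.001 → ∀ x : XX, ‖x‖ ≤ 1 →
      f0 x - 0.001 ≤ f x ∧ f x ≤ f0 x + 0.001 := by
    intro f f0 h x hx
    have : |f x - f0 x| ≤ 0.001 := by
      calc |f x - f0 x| = ‖(f - f0) x‖ := rfl
        _ ≤ ‖f - f0‖ * ‖x‖ := (f - f0).le_opNorm _
        _ ≤ 0.001 * 1 := by gcongr
        _ = _ := mul_one _
    rw [abs_le] at this
    constructor <;> linarith
  have nrm : ∀ (f f0 : XX →L[ℝ] ℝ), ‖f - f0‖ ≤ 0.001 → ‖f0‖ ≤ 1 → ‖f‖ ≤ 1.001 := by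
    intro f f0 h h0
    have : ‖f‖ ≤ ‖f - f0‖ + ‖f0‖ := by
      calc ‖f‖ = ‖(f - f0) + f0‖ := by rw [sub_add_cancel]
        _ ≤ _ := norm_add_le _ _
    linarith
  rintro u (⟨n, i, rfl⟩ | rfl | rfl)
  · refine ⟨ev n i, fun f hf => ?_⟩
    have h1 := near f _ hf _ (norm_uv n i)
    rw [ev_uv, if_pos ⟨rfl, rfl⟩] at h1
    have h2 := nrm f _ hf (norm_ev_le _ _)
    rw [map_smul, smul_eq_mul]
    refine ⟨by linarith, by linarith, ?_⟩
    rintro a (⟨m, j, rfl⟩ | rfl | rfl)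
    · rw [map_smul, smul_eq_mul, abs_le]
      by_cases h : n = m ∧ i = j
      · obtain ⟨rfl, rfl⟩ := h
        constructor <;> linarith
      · have h3 := near f _ hf _ (norm_uv m j)
        rw [ev_uv, if_neg h] at h3
        constructor <;> linarith
    · have h3 := near f _ hf _ (norm_t0 0)
      have h4 := abs_le.1 ((abs_ev_le n i (t0 0)).trans (norm_t0 0))
      rw [map_smul, smul_eq_mul, abs_le]
      constructor <;> linarith
    · have h3 := near f _ hf _ (norm_t1 0)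
      have h4 := abs_le.1 ((abs_ev_le n i (t1 0)).trans (norm_t1 0))
      rw [map_smul, smul_eq_mul, abs_le]
      constructor <;> linarith
  · refine ⟨ev OnePoint.infty 0, fun f hf => ?_⟩
    have h1 := near f _ hf _ (norm_t0 0)
    have h1' := near f _ hf _ (norm_t1 0)
    have e0 : ev OnePoint.infty 0 (t0 0) = 1 := by simp [t0, ev_tl_infty]
    have e1 : ev OnePoint.infty 0 (t1 0) = 0 := by simp [t1, ev_tl_infty]
    rw [e0] at h1
    rw [e1] at h1'
    have h2 := nrm f _ hf (norm_ev_le _ _)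
    rw [map_smul, smul_eq_mul]
    refine ⟨by linarith, by linarith, ?_⟩
    rintro a (⟨m, j, rfl⟩ | rfl | rfl)
    · have h3 := near f _ hf _ (norm_uv m j)
      rw [ev_uv_infty] at h3
      rw [map_smul, smul_eq_mul, abs_le]
      constructor <;> linarith
    · rw [map_smul, smul_eq_mul, abs_le]
      constructor <;> linarith
    · rw [map_smul, smul_eq_mul, abs_le]
      constructor <;> linarith
  · refine ⟨ev OnePoint.infty 1, fun f hf => ?_⟩
    have h1 := near f _ hf _ (norm_t0 0)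
    have h1' := near f _ hf _ (norm_t1 0)
    have e0 : ev OnePoint.infty 1 (t0 0) = 0 := by simp [t0, ev_tl_infty]
    have e1 : ev OnePoint.infty 1 (t1 0) = 1 := by simp [t1, ev_tl_infty]
    rw [e0] at h1
    rw [e1] at h1'
    have h2 := nrm f _ hf (norm_ev_le _ _)
    rw [map_smul, smul_eq_mul]
    refine ⟨by linarith, by linarith, ?_⟩
    rintro a (⟨m, j, rfl⟩ | rfl | rfl)
    · have h3 := near f _ hf _ (norm_uv m j)
      rw [ev_uv_infty] at h3
      rw [map_smul, smul_eq_mul, abs_le]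
      constructor <;> linarith
    · rw [map_smul, smul_eq_mul, abs_le]
      constructor <;> linarith
    · rw [map_smul, smul_eq_mul, abs_le]
      constructor <;> linarith

/-- A real Banach space which is the only predual of its dual, with numerical index at least `0.7`,
whose dual has numerical index at most `0.6`. -/
theorem counterexample :
    ∃ (X : Type) (_ : NormedAddCommGroup X) (_ : NormedSpace ℝ X) (_ : CompleteSpace X),
      ni (X →L[ℝ] ℝ) ≤ 0.6 ∧
      ∀ (X' : Type) [NormedAddCommGroup X'] [NormedSpace ℝ X'] [CompleteSpace X'],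
        Nonempty ((X' →L[ℝ] ℝ) ≃ₗᵢ[ℝ] (X →L[ℝ] ℝ)) → Nonempty (X ≃ₗᵢ[ℝ] X') ∧ 0.7 ≤ ni X' := by
  obtain ⟨X, i1, i2, i3, e, h1, h2, h3, h4⟩ := renorm spikes spikes_norm
  obtain ⟨J0, hJ, f0, hf0, hJf0⟩ := exists_J
  refine ⟨X, i1, i2, i3, ni_upper e h1 h2 J0 hJ f0 hf0 hJf0, ?_⟩
  rintro X' _ _ _ ⟨Φ⟩
  have hD : (Submodule.span ℝ (e '' spikes)).topologicalClosure = ⊤ := by
    rw [eq_top_iff]
    intro y _
    obtain ⟨x, rfl⟩ := e.surjective y
    have hx : x ∈ (Submodule.span ℝ spikes).topologicalClosure := by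
      rw [spikes_dense]; trivial
    have hle : (Submodule.span ℝ spikes).topologicalClosure ≤
        ((Submodule.span ℝ (e '' spikes)).topologicalClosure).comap e.toLinearEquiv.toLinearMap := by
      apply Submodule.topologicalClosure_minimal
      · rw [Submodule.span_le]
        intro a ha
        exact Submodule.le_topologicalClosure _ (Submodule.subset_span ⟨a, ha, rfl⟩)
      · exact (Submodule.isClosed_topologicalClosure _).preimage e.continuous
    exact hle hx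
  have hloc : ∀ u ∈ e '' spikes, ‖u‖ ≤ 1 ∧ ∃ (g0 : X →L[ℝ] ℝ) (δ : ℝ), 0 < δ ∧
      ∀ g : X →L[ℝ] ℝ, ‖g - g0‖ ≤ δ → ‖g‖ ≤ g u := by
    rintro _ ⟨u, hu, rfl⟩
    refine ⟨h3 u hu, ?_⟩
    obtain ⟨f0, hf0⟩ := spikes_loc u hu
    refine ⟨f0.comp (e.symm : X →L[ℝ] XX), 0.001, by norm_num, fun g hg => ?_⟩
    have hn : ‖g.comp (e : XX →L[ℝ] X) - f0‖ ≤ 0.001 := by
      apply ContinuousLinearMap.opNorm_le_bound _ (by norm_num)
      intro x
      have : (g.comp (e : XX →L[ℝ] X) - f0) x = (g - f0.comp (e.symm : X →L[ℝ] XX)) (e x) := by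
        simp
      rw [this]
      calc _ ≤ ‖g - f0.comp (e.symm : X →L[ℝ] XX)‖ * ‖e x‖ := ContinuousLinearMap.le_opNorm _ _
        _ ≤ 0.001 * ‖x‖ := by gcongr; exact h1 x
    obtain ⟨k1, k2, k3⟩ := hf0 _ hn
    exact h4 g _ k1 k2 k3
  obtain ⟨θ⟩ := unique_predual (e '' spikes) hD hloc Φ
  refine ⟨⟨θ⟩, ?_⟩
  apply ni_lower (e.trans θ.toContinuousLinearEquiv) _ _ (uv 0 0) _ adp
  · intro x
    simpa using h1 x
  · intro x
    simpa using h2 x
  · intro h
    have := ev_uv 0 0 0 0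
    rw [h] at this
    simp at this

end Pool.Agent.P.MP_349896_an
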